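import Pool.Agent.W4.QD.Stms
import Pool.Agent.W540.CF.SEL

/-!
# Project QD, part SEL: the choice between the two methods
-/

set_option autoImplicit false

namespace Pool.Agent.W392.QD.SEL

open Pool.Agent.W4.CF Pool.Agent.W4.QD Pool.Agent.W540.CF Finset

/-- the logarithm of the exponent function -/
noncomputable def bd (d y ρ : ℝ) : ℝ :=
  min (ρ * ((d ^ 2 + 2 * d - 2) / (d * (2 * d - 1))))
    (max (ρ + y * (-(((d - 1) * (d - 2)) / (2 * d - 1))))
      (ρ * (1 / (4 * d - 3)) + y * (d * (d - 1) / (4 * d - 3))))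

lemma BdD_eq (d : ℕ) (Y R : ℝ) (hY : 1 ≤ Y) (hR : 1 ≤ R) :
    BdD d Y R = Real.exp (bd d (Real.log Y) (Real.log R)) := by
  have hY0 : 0 < Y := by linarith
  have hR0 : 0 < R := by linarith
  rw [bd, Real.exp_monotone.map_min, Real.exp_monotone.map_max, BdD, Real.rpow_def_of_pos hR0,
    Real.rpow_def_of_pos hR0, Real.rpow_def_of_pos hY0, Real.rpow_def_of_pos hY0, ← Real.exp_add,
    Real.exp_add (Real.log R) _, Real.exp_log hR0]

lemma bd_nonneg (d y ρ : ℝ) (hd : 3 ≤ d) (hy : 0 ≤ y) (hρ : 0 ≤ ρ) : 0 ≤ bd d y ρ := by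
  have h1 : 0 < 2 * d - 1 := by linarith
  have h2 : 0 < 4 * d - 3 := by linarith
  have h3 : 0 < d := by linarith
  have h4 : 0 ≤ d - 1 := by linarith
  refine le_min ?_ (le_max_of_le_right ?_)
  · refine mul_nonneg hρ (div_nonneg ?_ (by positivity))
    nlinarith
  · positivity

/-- the case `k ≥ 2` -/
lemma core (d L lam lam' p q t D W W1 g0 E S : ℝ) (k : ℕ) (hk : 2 ≤ k) (hd : 3 ≤ d) (hL : 0 ≤ L)
    (hp : 0 ≤ p) (hq : 0 ≤ q) (hg0 : 0 ≤ g0) (hS : g0 ≤ S) (hE0 : 0 ≤ E)
    (hlam : lam' = p + q) (hll : lam' ≤ lam) (hWL : W ≤ d * L + g0)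
    (ha : E + S < t + q) (hb : E + S < q + D - (d - 2) * L) (hs : d * (E + S) + (d - 1) * t < d * lam')
    (hW : W = D + W1) (hW1 : ((k : ℝ) + 1) * q ≤ W1) (hDk : D ≤ k * p)
    (hD1 : D ≤ (k - 1) * p + t) (hD2 : p + (k - 1) * t ≤ D) (hD0 : (d - 2) * L < D) (hlW : lam' ≤ W)
    (hE : (d ^ 2 + 2 * d - 2) * lam ≤ d * (2 * d - 1) * E ∨
      ((2 * d - 1) * lam - (d - 1) * (d - 2) * L ≤ (2 * d - 1) * E ∧
        lam + d * (d - 1) * L ≤ (4 * d - 3) * E)) : False := by
  have hkR : (2 : ℝ) ≤ k := by exact_mod_cast hk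
  have hl0 : 0 ≤ lam' := by rw [hlam]; linarith
  have hdL : 0 ≤ (d - 2) * L := mul_nonneg (by linarith) hL
  have hA0 : 0 ≤ E + S := by linarith
  have E2 : ¬ ((2 * d - 1) * lam - (d - 1) * (d - 2) * L ≤ (2 * d - 1) * E ∧
        lam + d * (d - 1) * L ≤ (4 * d - 3) * E) := by
    rintro ⟨h1, h2⟩
    rcases Nat.lt_or_ge k 3 with h3 | h3
    · have hk2 : (k : ℝ) = 2 := by
        have : k = 2 := by omega
        rw [this]; norm_num
      rw [hk2] at hD1
      have h4 : E + S < lam' + t - (d - 2) * L := by rw [hlam]; linarith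
      have h5 := mul_lt_mul_of_pos_left h4 (by linarith : 0 < d - 1)
      have h6 : (2 * d - 1) * lam' ≤ (2 * d - 1) * lam :=
        mul_le_mul_of_nonneg_left hll (by linarith)
      have h7 : 0 ≤ (2 * d - 1) * S := mul_nonneg (by linarith) (by linarith)
      linarith
    · have hk3 : (3 : ℝ) ≤ k := by exact_mod_cast h3
      have h4 : lam' + ((k : ℝ) - 1) * (t + q) + q ≤ W := by
        rw [hW, hlam]
        linarith
      have h5 : ((k : ℝ) - 1) * (E + S) ≤ ((k : ℝ) - 1) * (t + q) :=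
        mul_le_mul_of_nonneg_left ha.le (by linarith)
      have h5' : 2 * (E + S) ≤ ((k : ℝ) - 1) * (E + S) :=
        mul_le_mul_of_nonneg_right (by linarith) hA0
      have h6 : lam' + 3 * (E + S) - t < W := by linarith
      have h7 := mul_lt_mul_of_pos_left h6 (by positivity : 0 < d)
      have h8 : 4 * d * (E + S) - t < d * W := by linarith
      have h9 := mul_lt_mul_of_pos_left h8 (by linarith : 0 < d - 1)
      have h10 : d * ((4 * d - 3) * (E + S)) < d * ((d - 1) * W + lam') := by linarith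
      have h11 := lt_of_mul_lt_mul_left h10 (by linarith)
      have h12 : (d - 1) * W ≤ (d - 1) * (d * L + g0) :=
        mul_le_mul_of_nonneg_left hWL (by linarith)
      have h13 : (4 * d - 3) * g0 ≤ (4 * d - 3) * S := mul_le_mul_of_nonneg_left hS (by linarith)
      have h14 : 0 ≤ (3 * d - 2) * g0 := mul_nonneg (by linarith) hg0
      linarith
  rcases hE with hE | hE
  · have hW1q : 0 ≤ W1 := le_trans (mul_nonneg (by linarith) hq) hW1
    have hWpos : 0 < W := by linarith
    have hkq : (k : ℝ) * q ≤ W1 := by linarith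
    have h1 : q * D ≤ W1 * p := by
      calc q * D ≤ q * (k * p) := mul_le_mul_of_nonneg_left hDk hq
        _ = (k * q) * p := by ring
        _ ≤ W1 * p := mul_le_mul_of_nonneg_right hkq hp
    have h2 : q * W ≤ W1 * lam' := by
      rw [hW, hlam]
      linarith
    have h3 : d * W1 ≤ 2 * W + (d - 2) * g0 := by
      have h4 : W1 ≤ W - (d - 2) * L := by linarith
      have h5 : d * W1 ≤ d * (W - (d - 2) * L) := mul_le_mul_of_nonneg_left h4 (by linarith)
      have h6 : (d - 2) * (W - g0) ≤ (d - 2) * (d * L) :=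
        mul_le_mul_of_nonneg_left (by linarith) (by linarith)
      linarith
    have h4 : (d * q) * W ≤ (2 * lam' + d * g0) * W := by
      calc (d * q) * W = d * (q * W) := by ring
        _ ≤ d * (W1 * lam') := mul_le_mul_of_nonneg_left h2 (by linarith)
        _ = (d * W1) * lam' := by ring
        _ ≤ (2 * W + (d - 2) * g0) * lam' := mul_le_mul_of_nonneg_right h3 hl0
        _ = 2 * lam' * W + ((d - 2) * g0) * lam' := by ring
        _ ≤ 2 * lam' * W + ((d - 2) * g0) * W := by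
          have := mul_le_mul_of_nonneg_left hlW (mul_nonneg (by linarith : 0 ≤ d - 2) hg0)
          linarith
        _ ≤ 2 * lam' * W + (d * g0) * W := by
          have : (d - 2) * g0 ≤ d * g0 := mul_le_mul_of_nonneg_right (by linarith) hg0
          have := mul_le_mul_of_nonneg_right this hWpos.le
          linarith
        _ = _ := by ring
    have h5 : d * q ≤ 2 * lam' + d * g0 := le_of_mul_le_mul_right h4 hWpos
    have h6 := mul_lt_mul_of_pos_left ha (by linarith : 0 < d - 1)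
    have h7 : (2 * d - 1) * (E + S) < d * lam' + (d - 1) * q := by linarith
    have h8 := mul_lt_mul_of_pos_left h7 (by linarith : 0 < d)
    have h9 := mul_le_mul_of_nonneg_left h5 (by linarith : 0 ≤ d - 1)
    have h10 : (d ^ 2 + 2 * d - 2) * lam' ≤ (d ^ 2 + 2 * d - 2) * lam :=
      mul_le_mul_of_nonneg_left hll (by nlinarith)
    have h11 : d * (2 * d - 1) * g0 ≤ d * (2 * d - 1) * S :=
      mul_le_mul_of_nonneg_left hS (by nlinarith)
    have h12 : 0 ≤ (d * d) * g0 := by positivity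
    linarith
  · exact E2 hE

lemma Dk_le' (m f k : ℕ) (hk : 1 ≤ k) : Dk m f k ≤ Pk m f k ^ (k - 1) * fk m f k := by
  have h1 : fk m f k = ∏ p ∈ f.primeFactors.filter (fun p => ¬ p ∣ m ∧ f.factorization p ≤ k),
      if f.factorization p = k then p else 1 := by
    rw [fk, ← Finset.prod_filter, Finset.filter_filter]
    refine Finset.prod_congr (Finset.filter_congr fun p _ => ?_) fun _ _ => rfl
    constructor
    · rintro ⟨h1, h2⟩
      exact ⟨⟨h1, h2.le⟩, h2⟩
    · rintro ⟨⟨h1, _⟩, h2⟩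
      exact ⟨h1, h2⟩
  rw [h1, Dk, Pk, ← Finset.prod_pow, ← Finset.prod_mul_distrib]
  refine Finset.prod_le_prod' fun p hp => ?_
  have h := Finset.mem_filter.mp hp
  split_ifs with h2
  · rw [h2, ← pow_succ, Nat.sub_add_cancel hk]
  · rw [mul_one]
    exact Nat.pow_le_pow_right (pos_of_mem h.1) (by have := h.2.2; omega)

lemma le_Dk (m f k : ℕ) (hk : 1 ≤ k) : Pk m f k * fk m f k ^ (k - 1) ≤ Dk m f k := by
  have h1 : fk m f k = ∏ p ∈ f.primeFactors.filter (fun p => ¬ p ∣ m ∧ f.factorization p ≤ k),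
      if f.factorization p = k then p else 1 := by
    rw [fk, ← Finset.prod_filter, Finset.filter_filter]
    refine Finset.prod_congr (Finset.filter_congr fun p _ => ?_) fun _ _ => rfl
    constructor
    · rintro ⟨h1, h2⟩
      exact ⟨⟨h1, h2.le⟩, h2⟩
    · rintro ⟨⟨h1, _⟩, h2⟩
      exact ⟨h1, h2⟩
  rw [h1, Dk, Pk, ← Finset.prod_pow, ← Finset.prod_mul_distrib]
  refine Finset.prod_le_prod' fun p hp => ?_
  have h := Finset.mem_filter.mp hp
  split_ifs with h2
  · rw [h2, ← pow_succ', Nat.sub_add_cancel hk]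
  · rw [one_pow, mul_one]
    exact Nat.le_self_pow (by have := fac_pos h.1; omega) p

theorem t_SEL : Pool.Agent.W4.QD.S_SEL := by
  intro d c0 c1 ε hd hc0 hc1 hε
  set c0' : ℝ := max 1 c0 with hc0'
  set c2 : ℝ := max 1 c1 with hc2
  have h1c0' : 1 ≤ c0' := le_max_left _ _
  have h1c2 : 1 ≤ c2 := le_max_left _ _
  have hdR : (3 : ℝ) ≤ d := by exact_mod_cast hd
  have hd2 : (((d - 2 : ℕ) : ℕ) : ℝ) = (d : ℝ) - 2 := by
    rw [Nat.cast_sub (by omega)]; norm_num
  obtain ⟨k0, hk0⟩ := exists_nat_ge ((d : ℝ) / ε)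
  refine ⟨c0' * c2, k0, by positivity, ?_⟩
  intro m f Y R hm hf hY hR hfY hrR hRY
  have hf0 : f ≠ 0 := by omega
  have hY0 : 0 < Y := by linarith
  have hR0 : 0 < R := by linarith
  set y := Real.log Y with hy
  set ρ := Real.log R with hρ
  set g0 := Real.log c0' with hg0
  set g1 := Real.log c2 with hg1
  have hy0 : 0 ≤ y := Real.log_nonneg hY
  have hρ0 : 0 ≤ ρ := Real.log_nonneg hR
  have hg00 : 0 ≤ g0 := Real.log_nonneg h1c0'
  have hg10 : 0 ≤ g1 := Real.log_nonneg h1c2
  set E := bd d y ρ with hE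
  have hE0 : 0 ≤ E := bd_nonneg d y ρ hdR hy0 hρ0
  have hεy : 0 ≤ ε * y := by positivity
  set S := g0 + g1 + ε * y with hS
  have hRHS : c0' * c2 * Y ^ ε * BdD d Y R = Real.exp (E + S) := by
    rw [BdD_eq d Y R hY hR, hS, Real.exp_add, Real.exp_add, Real.exp_add,
      Real.rpow_def_of_pos hY0, ← hy, hg0, hg1, Real.exp_log (by positivity),
      Real.exp_log (by positivity), mul_comm ε y, ← hρ, ← hE]
    ring
  rw [hRHS]
  have hYd : (0 : ℝ) < Y ^ (d - 2) := by positivity
  have hYd1 : (1 : ℝ) ≤ Y ^ (d - 2) := one_le_pow₀ hY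
  have hqpos : ∀ k, (1 : ℝ) ≤ (qk m f k : ℝ) := fun k => by exact_mod_cast one_le_qk m f k
  by_cases hall : ∀ k : ℕ, 1 ≤ k → (f : ℝ) ≤ Y ^ (d - 2) * qk m f k
  · left
    refine ⟨qk m f (f + 1), qk_dvd m f _ hf0, ?_⟩
    rw [radp_qk, Qk_big m f hf0]
    have h1 : (f : ℝ) / (Y ^ (d - 2) * qk m f (f + 1)) ≤ 1 := by
      rw [div_le_one (mul_pos hYd (by linarith [hqpos (f + 1)]))]
      exact hall _ (by omega)
    rw [max_eq_left h1]
    have : (0 : ℝ) ≤ E + S := by positivity
    simpa using Real.one_le_exp this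
  push Not at hall
  have hex : ∃ j : ℕ, ¬ ((f : ℝ) ≤ Y ^ (d - 2) * qk m f (j + 1)) := by
    obtain ⟨k, hk, hk2⟩ := hall
    refine ⟨k - 1, ?_⟩
    rw [show k - 1 + 1 = k by omega]
    exact not_le.mpr hk2
  classical
  obtain ⟨k, hk1, hk2, hk3⟩ : ∃ k : ℕ, 1 ≤ k ∧ (f : ℝ) ≤ Y ^ (d - 2) * qk m f k ∧
      Y ^ (d - 2) * qk m f (k + 1) < f := by
    have h1 := Nat.find_spec hex
    have h2 := fun j hj => Nat.find_min hex (m := j) hj
    set j := Nat.find hex with hj
    have hj0 : j ≠ 0 := by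
      intro h0
      rw [h0] at h1
      apply h1
      rw [show 0 + 1 = 1 by rfl, qk_one m f hf0]
      have h3 : (0 : ℝ) ≤ f := Nat.cast_nonneg f
      nlinarith
    refine ⟨j, by omega, ?_, not_le.mp h1⟩
    have h3 := h2 (j - 1) (by omega)
    rw [show j - 1 + 1 = j by omega] at h3
    exact not_not.mp h3
  -- the real quantities
  have hP1 : (1 : ℝ) ≤ (Pk m f k : ℝ) := by exact_mod_cast one_le_Pk m f k
  have hQ1 : (1 : ℝ) ≤ (Qk m f (k + 1) : ℝ) := by exact_mod_cast one_le_Qk m f (k + 1)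
  have hQk1 : (1 : ℝ) ≤ (Qk m f k : ℝ) := by exact_mod_cast one_le_Qk m f k
  have hF1 : (1 : ℝ) ≤ (fk m f k : ℝ) := by exact_mod_cast one_le_fk m f k
  have hfe : (f : ℝ) = qk m f (k + 1) * Dk m f k := by exact_mod_cast f_eq m f k hf0
  have hq1 := hqpos (k + 1)
  have hDpos : Y ^ (d - 2) < (Dk m f k : ℝ) := by
    rw [hfe] at hk3
    have : (qk m f (k + 1) : ℝ) * Y ^ (d - 2) < qk m f (k + 1) * Dk m f k := by
      rw [mul_comm]; exact hk3
    exact lt_of_mul_lt_mul_left this (by linarith)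
  have hD0 : (0 : ℝ) < (Dk m f k : ℝ) := by linarith
  have hf1 : (1 : ℝ) ≤ (f : ℝ) := by exact_mod_cast hf
  have hrP : (radp m f : ℝ) = Pk m f k * Qk m f (k + 1) := by exact_mod_cast radp_eq m f k
  set p := Real.log (Pk m f k) with hp
  set q := Real.log (Qk m f (k + 1)) with hq
  set t := Real.log (fk m f k) with ht
  set D := Real.log (Dk m f k) with hD
  set W := Real.log f with hW
  set W1 := Real.log (qk m f (k + 1)) with hW1
  set lam' := Real.log (radp m f) with hlam
  have hp0 : 0 ≤ p := Real.log_nonneg hP1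
  have hq0 : 0 ≤ q := Real.log_nonneg hQ1
  have ht0 : 0 ≤ t := Real.log_nonneg hF1
  have hlpq : lam' = p + q := by
    rw [hlam, hrP, Real.log_mul (by positivity) (by positivity)]
  have hr1 : (1 : ℝ) ≤ radp m f := by
    rw [hrP]
    exact one_le_mul_of_one_le_of_one_le hP1 hQ1
  have hll : lam' ≤ ρ := Real.log_le_log (by linarith) hrR
  have hρy : ρ ≤ g1 + (d - 2) * y := by
    have h1 : R ≤ c2 * Y ^ (d - 2) :=
      hRY.trans (mul_le_mul_of_nonneg_right (le_max_right _ _) hYd.le)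
    have h2 := Real.log_le_log hR0 h1
    rwa [Real.log_mul (by positivity) (by positivity), Real.log_pow, hd2] at h2
  have hWL : W ≤ d * y + g0 := by
    have h1 : (f : ℝ) ≤ c0' * Y ^ d :=
      hfY.trans (mul_le_mul_of_nonneg_right (le_max_right _ _) (by positivity))
    have h2 := Real.log_le_log (by linarith) h1
    rw [Real.log_mul (by positivity) (by positivity), Real.log_pow] at h2
    linarith
  have hWD : W = D + W1 := by
    rw [hW, hfe, Real.log_mul (by linarith) hD0.ne']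
    ring
  have hW1q : ((k : ℝ) + 1) * q ≤ W1 := by
    have h1 : (Qk m f (k + 1) : ℝ) ^ (k + 1) ≤ qk m f (k + 1) := by
      exact_mod_cast Qk_pow_le m f (k + 1)
    have h2 := Real.log_le_log (by positivity) h1
    rw [Real.log_pow] at h2
    push_cast at h2
    exact h2
  have hDk : D ≤ k * p := by
    have h1 : (Dk m f k : ℝ) ≤ (Pk m f k : ℝ) ^ k := by exact_mod_cast Dk_le m f k
    have h2 := Real.log_le_log hD0 h1
    rwa [Real.log_pow] at h2
  have hk1c : (((k - 1 : ℕ) : ℕ) : ℝ) = (k : ℝ) - 1 := by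
    rw [Nat.cast_sub hk1]; norm_num
  have hD1 : D ≤ (k - 1) * p + t := by
    have h1 : (Dk m f k : ℝ) ≤ (Pk m f k : ℝ) ^ (k - 1) * fk m f k := by
      exact_mod_cast Dk_le' m f k hk1
    have h2 := Real.log_le_log hD0 h1
    rwa [Real.log_mul (by positivity) (by positivity), Real.log_pow, hk1c] at h2
  have hD2 : p + (k - 1) * t ≤ D := by
    have h1 : (Pk m f k : ℝ) * (fk m f k : ℝ) ^ (k - 1) ≤ Dk m f k := by
      exact_mod_cast le_Dk m f k hk1
    have h2 := Real.log_le_log (by positivity) h1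
    rwa [Real.log_mul (by positivity) (by positivity), Real.log_pow, hk1c] at h2
  have hDL : (d - 2) * y < D := by
    have h2 := Real.log_lt_log hYd hDpos
    rwa [Real.log_pow, hd2] at h2
  have hlW : lam' ≤ W := by
    have h1 : 0 ≤ (k : ℝ) * q := by positivity
    have h2 : p ≤ D := by
      have h3 : 0 ≤ ((k : ℝ) - 1) * t := by
        refine mul_nonneg ?_ ht0
        have : (1 : ℝ) ≤ k := by exact_mod_cast hk1
        linarith
      linarith
    rw [hlpq, hWD]
    linarith
  -- the three costs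
  by_cases ha : t + q ≤ E + S
  · left
    refine ⟨qk m f k, qk_dvd m f k hf0, ?_⟩
    have h1 : (f : ℝ) / (Y ^ (d - 2) * qk m f k) ≤ 1 := by
      rw [div_le_one (mul_pos hYd (by linarith [hqpos k]))]
      exact hk2
    rw [max_eq_left h1, mul_one, radp_qk, Qk_eq]
    push_cast
    rw [← Real.exp_log (by positivity : (0 : ℝ) < fk m f k),
      ← Real.exp_log (by positivity : (0 : ℝ) < Qk m f (k + 1)), ← Real.exp_add]
    exact Real.exp_le_exp.mpr ha
  by_cases hb : q + D - (d - 2) * y ≤ E + S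
  · left
    refine ⟨qk m f (k + 1), qk_dvd m f _ hf0, ?_⟩
    have h0 : (0 : ℝ) < Y ^ (d - 2) * qk m f (k + 1) := mul_pos hYd (by linarith)
    have h1 : 1 ≤ (f : ℝ) / (Y ^ (d - 2) * qk m f (k + 1)) := by
      rw [one_le_div h0]
      exact hk3.le
    have h2 : (f : ℝ) / (Y ^ (d - 2) * qk m f (k + 1)) = Dk m f k / Y ^ (d - 2) := by
      rw [hfe]
      field_simp
    rw [max_eq_right h1, radp_qk, h2]
    rw [← Real.exp_log (by positivity : (0 : ℝ) < Qk m f (k + 1)),
      ← Real.exp_log hD0, ← Real.exp_log hYd, ← Real.exp_sub, ← Real.exp_add, Real.log_pow, hd2]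
    refine Real.exp_le_exp.mpr ?_
    linarith
  push Not at ha hb
  rcases Nat.lt_or_ge k0 k with hkk | hkk
  · -- large k
    exfalso
    have hk5 : (d : ℝ) / ε ≤ k := hk0.trans (by exact_mod_cast hkk.le)
    have h5 : (d : ℝ) ≤ ε * k := by
      rw [div_le_iff₀ hε] at hk5
      linarith
    have h1 : (Qk m f k : ℝ) ^ k ≤ f := by
      have h1 : Qk m f k ^ k ≤ f :=
        (Qk_pow_le m f k).trans (Nat.le_of_dvd hf (qk_dvd m f k hf0))
      exact_mod_cast h1
    have h2 := Real.log_le_log (by positivity) h1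
    rw [Real.log_pow] at h2
    have h3 : Real.log (Qk m f k) = t + q := by
      rw [Qk_eq]
      push_cast
      rw [Real.log_mul (by positivity) (by positivity)]
    rw [h3] at h2
    have hkR : (1 : ℝ) ≤ k := by exact_mod_cast hk1
    have h4 : (k : ℝ) * (t + q) ≤ k * (g0 + ε * y) := by
      have h6 : (d : ℝ) * y ≤ ε * k * y := mul_le_mul_of_nonneg_right h5 hy0
      have h7 : 1 * g0 ≤ k * g0 := mul_le_mul_of_nonneg_right hkR hg00
      linarith
    have h6 := le_of_mul_le_mul_left h4 (by linarith)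
    linarith
  rcases Nat.lt_or_ge k 2 with hk | hk
  · exfalso
    have hk : k = 1 := by omega
    subst hk
    push_cast at hDk
    linarith
  by_cases hs : lam' ≤ E + S + (1 - 1 / (d : ℝ)) * t
  · right
    refine ⟨k, hk, hkk, ?_⟩
    rw [Real.rpow_def_of_pos (by positivity : (0 : ℝ) < fk m f k), ← Real.exp_add,
      ← Real.exp_log (by positivity : (0 : ℝ) < radp m f)]
    refine Real.exp_le_exp.mpr ?_
    rw [← hlam, ← ht]
    linarith
  · exfalso
    push Not at hs
    have hs' : (d : ℝ) * (E + S) + (d - 1) * t < d * lam' := by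
      have h1 := mul_lt_mul_of_pos_left hs (by linarith : (0 : ℝ) < d)
      have h2 : (d : ℝ) * (E + S + (1 - 1 / (d : ℝ)) * t) = d * (E + S) + (d - 1) * t := by
        field_simp
      rwa [h2] at h1
    have h2d : (0 : ℝ) < 2 * d - 1 := by linarith
    have h4d : (0 : ℝ) < 4 * d - 3 := by linarith
    have hEE : ((d : ℝ) ^ 2 + 2 * d - 2) * ρ ≤ d * (2 * d - 1) * E ∨
      ((2 * (d : ℝ) - 1) * ρ - (d - 1) * (d - 2) * y ≤ (2 * d - 1) * E ∧
        ρ + d * (d - 1) * y ≤ (4 * d - 3) * E) := by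
      rcases min_choice (ρ * (((d : ℝ) ^ 2 + 2 * d - 2) / (d * (2 * d - 1))))
        (max (ρ + y * (-((((d : ℝ) - 1) * (d - 2)) / (2 * d - 1))))
        (ρ * (1 / (4 * (d : ℝ) - 3)) + y * (d * (d - 1) / (4 * d - 3)))) with h | h
      · left
        have h1 : E = ρ * (((d : ℝ) ^ 2 + 2 * d - 2) / (d * (2 * d - 1))) := h
        rw [h1]
        apply le_of_eq
        have hne : (d : ℝ) * (2 * d - 1) ≠ 0 := by positivity
        rw [mul_comm ((d : ℝ) * (2 * d - 1)) _, mul_assoc, div_mul_cancel₀ _ hne, mul_comm]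
      · right
        have h1 : E = (max (ρ + y * (-((((d : ℝ) - 1) * (d - 2)) / (2 * d - 1))))
          (ρ * (1 / (4 * (d : ℝ) - 3)) + y * (d * (d - 1) / (4 * d - 3)))) := h
        constructor
        · have h2 : ρ + y * (-((((d : ℝ) - 1) * (d - 2)) / (2 * d - 1))) ≤ E := by
            rw [h1]; exact le_max_left _ _
          have h3 := mul_le_mul_of_nonneg_left h2 h2d.le
          have h4 : (2 * (d : ℝ) - 1) * (ρ + y * (-((((d : ℝ) - 1) * (d - 2)) / (2 * d - 1)))) =
              (2 * (d : ℝ) - 1) * ρ - (d - 1) * (d - 2) * y := by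
            field_simp
            ring
          rwa [h4] at h3
        · have h2 : ρ * (1 / (4 * (d : ℝ) - 3)) + y * (d * (d - 1) / (4 * d - 3)) ≤ E := by
            rw [h1]; exact le_max_right _ _
          have h3 := mul_le_mul_of_nonneg_left h2 h4d.le
          have h4 : (4 * (d : ℝ) - 3) * (ρ * (1 / (4 * (d : ℝ) - 3)) +
              y * (d * (d - 1) / (4 * d - 3))) = ρ + d * (d - 1) * y := by
            field_simp
          rwa [h4] at h3
    exact core d y ρ lam' p q t D W W1 g0 E S k hk hdR hy0 hp0 hq0 hg00 (by linarith) hE0 hlpq hll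
      hWL ha hb hs' hWD hW1q hDk hD1 hD2 hDL hlW
      hEE

end Pool.Agent.W392.QD.SEL
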